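import Pool.Agent.Lib.MP_524519_ag.DU5.AB.Iface
import Pool.Agent.Lib.MP_524519_ag.DU5.Top

/-! # `ABStatement` from `UPStatement` -/

set_option autoImplicit false

namespace Pool.Agent.DU5.AB.H10

open MvPowerSeries Pool.Agent.DU5

theorem ab_of_up (up : UPStatement) : ABStatement := by
  intro p _ k _ _ _ F _ _ f _ hf a ha a' ha' b hb b₁ hb₁ b₂ hb₂
  exact up p k F f hf a ha a' ha' b hb b₁ hb₁ b₂ hb₂

end Pool.Agent.DU5.AB.H10
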