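import Pool.Agent.Lib.MP_524519_ag.DU5.AB.Iface

/-! # CARTIER and ISJ -/

set_option autoImplicit false

namespace Pool.Agent.DU5.AB.H10

open MvPowerSeries Pool.Agent.DU5

theorem isj (hC : CROSSStatement) : ISJStatement := by
  intro p _ k _ f
  rw [jac, Ideal.span_le]
  rintro _ ⟨j, rfl⟩
  intro K _ _ D x _ hx _ hf
  refine ⟨jm D x j, fun i => ?_⟩
  rw [Nat.zero_mul, Nat.zero_div, pow_zero, one_mul]
  have := hC k K D x hx f hf i j
  rw [mul_comm (jm D x j), ← this]

theorem cartier (hK : KEYStatement) (hO : ORDStatement) (hN : NONZStatement) (hV : VMSStatement)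
    (hC : CROSSStatement) (hP : PTOPStatement) : CARTIERStatement := by
  intro p _ k _ _ _ f h hjac hh a K _ _ D x hD hx hx0 hf
  have hpp : p.Prime := Fact.out
  obtain ⟨g, hg⟩ := hh K D x hD hx hx0 hf
  rw [Nat.zero_mul, Nat.zero_div, pow_zero] at hg
  simp only [one_mul] at hg
  have hlt : ∀ i, (a i : ℕ) < p := fun i => (a i).2
  let b : Fin 3 → Fin p := fun i => ⟨p - 1 - a i, by omega⟩
  let t : Fin 3 → Fin p := fun i => ⟨p - 1, by have := hpp.pos; omega⟩
  have hb : ∀ i, (a i : ℕ) + b i + 1 = p := fun i => by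
    have := hlt i
    simp only [b]; omega
  have ht : ∀ i, (t i : ℕ) + 1 = p := fun i => by
    have := hpp.pos
    simp only [t]; omega
  have hpt : pc p a (h * f ^ (p - 1)) = pc p t (mn b * (h * f ^ (p - 1))) :=
    (hP p k _ a b t hb ht).symm
  set P := ev x (pc p a (h * f ^ (p - 1))) with hPdef
  set W := TT p (dd D) ((∏ j, x j ^ (b j : ℕ)) * g) with hWdef
  have key : ∀ i, P ^ p * jm D x i ^ p = ev x (pderiv k i f) ^ p * W := fun i => by
    rw [hPdef, hpt]
    exact hK p k K D hD x hx f h g hf hg b t i ht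
  obtain ⟨i, hi⟩ := hN k K 3 f hjac x hx hx0
  set v := fun j => ev x (pderiv k j f) with hvdef
  have hvi : v i ≠ 0 := hi
  have h1 : v i ∣ P * jm D x i := by
    rw [← IsIntegrallyClosed.pow_dvd_pow_iff hpp.ne_zero, mul_pow, key i]
    exact Dvd.intro _ rfl
  obtain ⟨q, hq⟩ := h1
  have hqW : q ^ p = W := by
    have h2 := key i
    rw [← mul_pow, hq, mul_pow] at h2
    exact mul_left_cancel₀ (pow_ne_zero p hvi) h2
  have hj : ∀ j, P * jm D x j = v j * q := fun j => by
    apply mul_left_cancel₀ hvi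
    have h3 : v j * jm D x i = v i * jm D x j := hC k K D x hx f hf i j
    calc v i * (P * jm D x j) = P * (v i * jm D x j) := by ring
      _ = P * (v j * jm D x i) := by rw [h3]
      _ = v j * (P * jm D x i) := by ring
      _ = v i * (v j * q) := by rw [hq]; ring
  have hprod : PowerSeries.X ^ ((3 * (p - 1) - tot a) * vm x) ∣ (∏ j, x j ^ (b j : ℕ)) * g := by
    apply Dvd.dvd.mul_right
    have h4 : (3 * (p - 1) - tot a) * vm x = ∑ j : Fin 3, vm x * (b j : ℕ) := by
      have h5 : 3 * (p - 1) - tot a = ∑ j : Fin 3, (b j : ℕ) := by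
        have e0 := hb 0
        have e1 := hb 1
        have e2 := hb 2
        simp only [tot, Fin.sum_univ_three]
        omega
      rw [h5, Finset.sum_mul]
      exact Finset.sum_congr rfl fun j _ => mul_comm _ _
    rw [h4, ← Finset.prod_pow_eq_pow_sum]
    apply Finset.prod_dvd_prod_of_dvd
    intro j _
    rw [pow_mul]
    exact pow_dvd_pow_of_dvd (hV K x j) _
  have hdvd := hO p k K D _ _ hprod
  rw [← hWdef, ← hqW, pow_mul', IsIntegrallyClosed.pow_dvd_pow_iff hpp.ne_zero] at hdvd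
  obtain ⟨r, hr⟩ := hdvd
  refine ⟨r, fun j => ?_⟩
  rw [← hr]
  rw [← hPdef, hj j]
  simp only [hvdef]
  ring

end Pool.Agent.DU5.AB.H10
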