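import Pool.Agent.Lib.MP_524519_ag.DU5.AB.Iface

/-! # EVF -/

set_option autoImplicit false

namespace Pool.Agent.DU5.AB.H10

open MvPowerSeries Pool.Agent.DU5

theorem evf_aux {k R : Type} [Field k] [CommRing R] [Algebra k R] (D : Derivation k R R)
    (f G : R) (m : ℕ) : ∀ j ≤ m, ∃ r, D^[j] (G * f ^ m) =
      f ^ (m - j) * ((m.descFactorial j : R) * (G * D f ^ j)) + f ^ (m - j + 1) * r := by
  intro j
  induction j with
  | zero => exact fun _ => ⟨0, by simp [mul_comm]⟩
  | succ j ih =>
    intro hj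
    obtain ⟨r, hr⟩ := ih (by omega)
    obtain ⟨s, rfl⟩ : ∃ s, m = j + 1 + s := ⟨m - (j + 1), by omega⟩
    have e1 : j + 1 + s - j = s + 1 := by omega
    have e2 : j + 1 + s - (j + 1) = s := by omega
    rw [e1] at hr
    rw [Function.iterate_succ_apply', hr, e2]
    have e3 : ((j + 1 + s).descFactorial (j + 1) : R) =
        ((s : R) + 1) * ((j + 1 + s).descFactorial j : R) := by
      rw [Nat.descFactorial_succ, e1]; push_cast; ring
    refine ⟨D (((j + 1 + s).descFactorial j : R) * (G * D f ^ j)) + (s + 1 + 1 : ℕ) * D f * r +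
      f * D r, ?_⟩
    rw [e3]
    simp only [map_add, Derivation.leibniz, Derivation.leibniz_pow, smul_eq_mul, nsmul_eq_mul,
      Derivation.map_natCast, mul_zero, add_zero, Nat.add_sub_cancel]
    push_cast
    ring

theorem evf : EVFStatement := by
  intro k A _ _ _ x hx f G i m hf
  obtain ⟨r, hr⟩ := evf_aux (pderiv k i) f G m m le_rfl
  rw [Nat.sub_self, pow_zero, one_mul, zero_add, pow_one, Nat.descFactorial_self] at hr
  have hφ : ∀ z : O k 3, ev x z = substAlgHom (hs hx) z := fun z => by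
    unfold ev; rw [← coe_substAlgHom (hs hx)]
  rw [hr, ev_add hx, ev_mul hx, ev_mul hx, ev_mul hx, hf, zero_mul, add_zero]
  congr 1
  · rw [hφ, map_natCast]
  · congr 1
    rw [hφ, hφ, map_pow]

end Pool.Agent.DU5.AB.H10
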