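import Pool.Agent.Lib.MP_524519_ag.DU5.AB.H10.Parts
import Pool.Agent.Lib.MP_524519_ag.DU5.AB.H10.Evf
import Pool.Agent.Lib.MP_524519_ag.DU5.AB.H10.Cartier

/-! # Chapter AB -/

set_option autoImplicit false

namespace Pool.Agent.DU5.AB.H10

open Pool.Agent.DU5

theorem crossS : CROSSStatement := H17.cross H61.chain

theorem cartierS : CARTIERStatement :=
  cartier (keyS evf) ord (H17.nonz H17.mpow) vms crossS H79.ptop

theorem isjS : ISJStatement := isj crossS

theorem ab : ABStatement := ab_of_up (upS cartierS isjS)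

end Pool.Agent.DU5.AB.H10
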