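import Pool.Agent.Lib.MP_524519_ag.DU5.AB.H10.Ab
import Pool.Agent.Lib.MP_524519_ag.DU5.AB.H17.CROSS
import Pool.Agent.Lib.MP_524519_ag.DU5.AB.H17.MPOW
import Pool.Agent.Lib.MP_524519_ag.DU5.AB.H17.NONZ
import Pool.Agent.Lib.MP_524519_ag.DU5.AB.H20.AUB
import Pool.Agent.Lib.MP_524519_ag.DU5.AB.H21.Fext
import Pool.Agent.Lib.MP_524519_ag.DU5.AB.H22.Isp
import Pool.Agent.Lib.MP_524519_ag.DU5.AB.H23.UP
import Pool.Agent.Lib.MP_524519_ag.DU5.AB.H24.Pb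
import Pool.Agent.Lib.MP_524519_ag.DU5.AB.H30.CF
import Pool.Agent.Lib.MP_524519_ag.DU5.AB.H38.VMS
import Pool.Agent.Lib.MP_524519_ag.DU5.AB.H40.Ord
import Pool.Agent.Lib.MP_524519_ag.DU5.AB.H45.Aid
import Pool.Agent.Lib.MP_524519_ag.DU5.AB.H47.AST
import Pool.Agent.Lib.MP_524519_ag.DU5.AB.H51.PDR
import Pool.Agent.Lib.MP_524519_ag.DU5.AB.H57.GEN
import Pool.Agent.Lib.MP_524519_ag.DU5.AB.H61.Mx
import Pool.Agent.Lib.MP_524519_ag.DU5.AB.H75.AMJ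
import Pool.Agent.Lib.MP_524519_ag.DU5.AB.H75.CORE
import Pool.Agent.Lib.MP_524519_ag.DU5.AB.H79.PTOP
import Pool.Agent.Lib.MP_524519_ag.DU5.AB.H82.Ders
import Pool.Agent.Lib.MP_524519_ag.DU5.AB.H82.Jac
import Pool.Agent.Lib.MP_524519_ag.DU5.AB.H84.PX
import Pool.Agent.Lib.MP_524519_ag.DU5.AB.H91.AFIL
import Pool.Agent.Lib.MP_524519_ag.DU5.AB.H94.KEY
import Pool.Agent.Lib.MP_524519_ag.DU5.AB.H97.Alen

/-! # Chapter AB without EVF, ISJ, CARTIER -/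

set_option autoImplicit false

namespace Pool.Agent.DU5.AB.H10

open Pool.Agent.DU5

theorem keyS (evf : EVFStatement) : KEYStatement :=
  H94.key (H82.jac (H30.cf H57.gen)) H82.ders (H51.pdr H24.pb) evf

theorem coreS (c : CARTIERStatement) : COREStatement :=
  H75.core c H22.isp (H45.aid H24.pb H84.px) (H47.ast H84.px) (H97.alen H24.pb) H75.amj
    (H91.afil H21.lcolS) H24.pb

theorem upS (c : CARTIERStatement) (isj : ISJStatement) : UPStatement :=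
  up (coreS c) (H20.aub H21.lcolS H21.pwr H21.lpow) H21.fext H17.mpow isj

end Pool.Agent.DU5.AB.H10
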